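import Pool.Agent.ZPU.StmtsB

/-! ZPU, row ALG. -/

set_option autoImplicit false

namespace Pool.Agent.ZPU.H75

open Polynomial Pool.Agent.ZPU

section

variable {p : ℕ} [Fact p.Prime]

theorem der_ne_zero {P : (ZMod p)[X]} (h0 : 0 < P.natDegree) (h1 : P.natDegree < p) :
    derivative P ≠ 0 := by
  intro h
  have h2 : (derivative P).coeff (P.natDegree - 1) = 0 := by rw [h, coeff_zero]
  rw [coeff_derivative] at h2
  have e1 : P.natDegree - 1 + 1 = P.natDegree := by omega
  rw [e1] at h2
  rcases mul_eq_zero.1 h2 with h3 | h3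
  · rw [coeff_natDegree, leadingCoeff_eq_zero] at h3
    rw [h3] at h0
    simp at h0
  · have h4 : ((P.natDegree : ℕ) : ZMod p) = 0 := by
      rw [← e1]
      push_cast
      exact h3
    rw [ZMod.natCast_eq_zero_iff] at h4
    exact absurd (Nat.le_of_dvd h0 h4) (by omega)

/-- the key: a factor of the derivative. -/
theorem keyP {P U : (ZMod p)[X]} (s : ZMod p) (h0 : 0 < P.natDegree) (h1 : P.natDegree < p)
    (hU : IsCoprime P U) (hd : P ∣ C s * (derivative P * U)) : s = 0 := by
  have h2 : P ∣ C s * derivative P := by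
    have h3 : C s * (derivative P * U) = (C s * derivative P) * U := by ring
    rw [h3] at hd
    exact hU.dvd_of_dvd_mul_right hd
  by_contra hs
  have h4 : C s * derivative P ≠ 0 := mul_ne_zero (by rwa [Ne, C_eq_zero]) (der_ne_zero h0 h1)
  have h5 := natDegree_le_of_dvd h2 h4
  rw [natDegree_C_mul hs] at h5
  have h6 := natDegree_derivative_lt (p := P) (by omega)
  omega

theorem coprime_C_mul {P g : (ZMod p)[X]} {ν : ZMod p} (hν : ν ≠ 0) (h : IsCoprime P g) :
    IsCoprime P (C ν * g) := by
  refine IsCoprime.mul_right ?_ h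
  exact ⟨0, C ν⁻¹, by rw [zero_mul, zero_add, ← C_mul, inv_mul_cancel₀ hν, C_1]⟩

end

theorem alg : ALGStmt := by
  intro p hp d n F G hd hG b c e ν heb hec hν
  have : Fact p.Prime := ⟨hp⟩
  obtain ⟨f, hf⟩ : ∃ f : Fin n → (ZMod p)[X], f = fun i => bar p (F i) := ⟨_, rfl⟩
  obtain ⟨g, hg⟩ : ∃ g : Fin n → (ZMod p)[X], g = fun i => bar p (G i) := ⟨_, rfl⟩
  have ef : ∀ i, bar p (F i) = f i := fun i => by rw [hf]
  have eg : ∀ i, bar p (G i) = g i := fun i => by rw [hg]
  have nc := hG.nc
  have FG := hG.FG
  have FF := hG.FF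
  have GG := hG.GG
  simp only [ef, eg] at nc FG FF GG
  have df : ∀ i, (f i).natDegree < p := by
    intro i
    rw [← ef]
    exact lt_of_le_of_lt natDegree_map_le (lt_of_le_of_lt (hG.dF i) hd)
  have dg : ∀ i, (g i).natDegree < p := by
    intro i
    rw [← eg]
    exact lt_of_le_of_lt natDegree_map_le (lt_of_le_of_lt (hG.dG i) hd)
  have bm : ∀ A B : ℤ[X], bar p (A * B) = bar p A * bar p B := by
    intro A B
    unfold bar
    rw [Polynomial.map_mul]
  have hν' : (ν : ZMod p) ≠ 0 := by
    intro h0
    rw [ZMod.intCast_zmod_eq_zero_iff_dvd] at h0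
    exact hν h0
  have bC : bar p (C ν * G b) = C (ν : ZMod p) * g b := by
    rw [bm, eg]
    unfold bar
    rw [map_C]
    rfl
  have f0 : ∀ i, f i ≠ 0 := by
    intro i h0
    have h1 := FG i i
    rw [h0, isCoprime_zero_left] at h1
    have h2 := natDegree_eq_zero_of_isUnit h1
    rcases nc i with h3 | h3
    · rw [h0] at h3
      simp at h3
    · omega
  have g0 : ∀ i, g i ≠ 0 := by
    intro i h0
    have h1 := FG i i
    rw [h0, isCoprime_zero_right] at h1
    have h2 := natDegree_eq_zero_of_isUnit h1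
    rcases nc i with h3 | h3
    · omega
    · rw [h0] at h3
      simp at h3
  have w1 : wr (C (ν : ZMod p) * g b) (f b) ≠ 0 := by
    intro h0
    unfold wr at h0
    rw [derivative_C_mul] at h0
    have h1 : C (ν : ZMod p) * (derivative (g b) * f b) = C (ν : ZMod p) * g b * derivative (f b) := by
      have h2 := sub_eq_zero.1 h0
      rw [← mul_assoc]
      exact h2
    rcases nc b with h3 | h3
    · have h4 : f b ∣ C (ν : ZMod p) * (derivative (f b) * g b) := by
        have h5 : C (ν : ZMod p) * (derivative (f b) * g b) =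
            C (ν : ZMod p) * (derivative (g b) * f b) := by rw [h1]; ring
        rw [h5]
        exact Dvd.dvd.mul_left (dvd_mul_left _ _) _
      exact hν' (keyP _ h3 (df b) (FG b b) h4)
    · have h4 : g b ∣ C (ν : ZMod p) * (derivative (g b) * f b) := by
        rw [h1]
        exact Dvd.dvd.mul_right (dvd_mul_left _ _) _
      exact hν' (keyP _ h3 (dg b) (FG b b).symm h4)
  -- the key statement for the pair `(A, B)` and a cofactor
  have main : ∀ (s : ZMod p) (T W : (ZMod p)[X]), IsCoprime (f e) W → IsCoprime (g e) W →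
      T * ((f c * g e) * (f e * g c)) + C s * (wr (f c * g e) (f e * g c) * W) = 0 → s = 0 := by
    intro s T W hfW hgW h0
    rcases nc e with h3 | h3
    · have h4 : f e ∣ C s * (derivative (f e) * ((f c * g e) * g c * W)) := by
        refine ⟨T * (f c * g e * g c) + C s * (derivative (f c * g e) * g c * W) -
          C s * (f c * g e * derivative (g c) * W), ?_⟩
        unfold wr at h0
        rw [derivative_mul (f := f e)] at h0
        linear_combination (-1 : (ZMod p)[X]) * h0
      refine keyP s h3 (df e) ?_ h4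
      exact ((FF e c hec).mul_right (FG e e)).mul_right (FG e c) |>.mul_right hfW
    · have h4 : g e ∣ C s * (derivative (g e) * (f c * (f e * g c) * W)) := by
        refine ⟨-(T * (f c * f e * g c)) - C s * (derivative (f c) * (f e * g c) * W) +
          C s * (f c * derivative (f e * g c) * W), ?_⟩
        unfold wr at h0
        rw [derivative_mul (f := f c)] at h0
        linear_combination h0
      refine keyP s h3 (dg e) ?_ h4
      exact (((FG c e).symm.mul_right ((FG e e).symm.mul_right (GG e c hec)))).mul_right hgW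
  have cop1 : IsCoprime (f e) (C (ν : ZMod p) * g b * f b) :=
    (coprime_C_mul hν' (FG e b)).mul_right (FF e b heb)
  have cop2 : IsCoprime (g e) (C (ν : ZMod p) * g b * f b) :=
    (coprime_C_mul hν' (GG e b heb)).mul_right (FG b e).symm
  refine ⟨?_, ?_, ?_⟩
  · intro i hi1 hi2 s h0
    rw [bC, bm, bm, ef, ef, ef, eg, eg] at h0
    have hs : s = 0 := by
      refine main s (C (i : ZMod p) * wr (C (ν : ZMod p) * g b) (f b)) (C (ν : ZMod p) * g b * f b)
        cop1 cop2 ?_
      rw [← h0]
      ring
    rw [hs, C_0, zero_mul, add_zero] at h0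
    have hi : (C (i : ZMod p) : (ZMod p)[X]) ≠ 0 := by
      rw [Ne, C_eq_zero, ZMod.natCast_eq_zero_iff]
      intro h
      exact absurd (Nat.le_of_dvd (by omega) h) (by omega)
    exact mul_ne_zero hi (mul_ne_zero w1 (mul_ne_zero (mul_ne_zero (f0 c) (g0 e))
      (mul_ne_zero (f0 e) (g0 c)))) h0
  · rw [bm, bm, ef, ef, eg, eg]
    rcases nc e with h3 | h3
    · exact ⟨f e, g c, h3, df e, Or.inr ⟨rfl, FG e c, (FF e c hec).mul_right (FG e e)⟩⟩
    · exact ⟨g e, f c, h3, dg e, Or.inl ⟨mul_comm _ _, (FG c e).symm,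
        (FG e e).symm.mul_right (GG e c hec)⟩⟩
  · rw [bm, bm, ef, ef, eg, eg]
    intro h0
    have h1 := main 1 0 1 isCoprime_one_right isCoprime_one_right (by
      rw [h0]
      ring)
    exact one_ne_zero h1

end Pool.Agent.ZPU.H75
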