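import Pool.Agent.ZPU.Stmts

/-! ZPU, row EVO (evaluation). -/

set_option autoImplicit false

namespace Pool.Agent.ZPU.H75

open Polynomial Pool.Agent.ZPU

section

variable {K : Type} [NormedField K] [IsUltrametricDist K]

theorem evO_mem (P : (OO K)[X]) (y : OO K) : evO P (y : K) = ((P.eval y : OO K) : K) := by
  unfold evO
  exact eval₂_at_apply (OO K).subtype y

theorem nle (x : OO K) : ‖(x : K)‖ ≤ 1 := x.2

/-- the polynomial with coefficients in `OO K`. -/
noncomputable def up (A : ℤ[X]) : (OO K)[X] := A.map (Int.castRingHom (OO K))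

theorem aeval_up (A : ℤ[X]) (x : OO K) :
    aeval (x : K) A = (((up A : (OO K)[X]).eval x : OO K) : K) := by
  unfold up
  rw [eval_map, aeval_def]
  have h1 := hom_eval₂ A (Int.castRingHom (OO K)) (OO K).subtype x
  have h2 : (OO K).subtype.comp (Int.castRingHom (OO K)) = algebraMap ℤ K := RingHom.ext_int _ _
  rw [h2] at h1
  exact h1.symm

theorem der_up (A : ℤ[X]) : (up (derivative A) : (OO K)[X]) = derivative (up A) := by
  unfold up
  rw [derivative_map]

end

theorem evo : EVOStmt := by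
  intro K _ _ _
  refine ⟨fun P Q y => ⟨?_, ?_, ?_⟩, fun P n y => ?_, fun c y => ?_, fun y => ?_,
    fun A τ y => ?_, fun P y hy => ?_, fun A x y hx hy => ?_⟩
  · exact eval₂_add _ _
  · exact eval₂_mul _ _
  · exact eval₂_sub _
  · exact eval₂_pow _ _ _
  · exact eval₂_C _ _
  · exact eval₂_X _ _
  · unfold evO sh
    rw [eval₂_comp, eval₂_map, eval₂_add, eval₂_X, eval₂_C, aeval_def]
    have h2 : (OO K).subtype.comp (Int.castRingHom (OO K)) = algebraMap ℤ K := RingHom.ext_int _ _
    rw [h2]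
    rfl
  · have key : ∀ Q : (OO K)[X], ‖evO Q y‖ ≤ 1 := by
      intro Q
      have h1 := evO_mem Q (⟨y, hy⟩ : OO K)
      rw [show evO Q y = evO Q ((⟨y, hy⟩ : OO K) : K) from rfl, h1]
      exact nle _
    refine ⟨key P, ?_⟩
    have h3 : ∀ z : K, evO P z = evO P.divX z * z + ((P.coeff 0 : OO K) : K) := by
      intro z
      have h4 : evO P z = evO (P.divX * X + C (P.coeff 0)) z := by rw [divX_mul_X_add]
      rw [h4]
      unfold evO
      rw [eval₂_add, eval₂_mul, eval₂_X, eval₂_C]
      rfl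
    rw [h3 y, h3 0]
    have h5 : evO P.divX y * y + ((P.coeff 0 : OO K) : K) -
        (evO P.divX 0 * 0 + ((P.coeff 0 : OO K) : K)) = evO P.divX y * y := by ring
    rw [h5, norm_mul]
    exact mul_le_of_le_one_left (norm_nonneg _) (key _)
  · have ex : x = ((⟨x, hx⟩ : OO K) : K) := rfl
    have ey : y = ((⟨y, hy⟩ : OO K) : K) := rfl
    refine ⟨?_, ?_, ?_⟩
    · rw [ex, aeval_up]
      exact nle _
    · obtain ⟨k, hk⟩ := sub_dvd_eval_sub (⟨x, hx⟩ : OO K) (⟨y, hy⟩ : OO K) (up A : (OO K)[X])
      have h1 : aeval x A - aeval y A = (x - y) * (k : K) := by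
        have h2 := congrArg (fun z : OO K => (z : K)) hk
        rw [ex, ey, aeval_up, aeval_up]
        exact h2
      rw [h1, norm_mul]
      exact mul_le_of_le_one_right (norm_nonneg _) (nle k)
    · obtain ⟨k, hk⟩ := binomExpansion (up A : (OO K)[X]) (⟨y, hy⟩ : OO K)
        ((⟨x, hx⟩ : OO K) - (⟨y, hy⟩ : OO K))
      have h1 : aeval x A - aeval y A - (x - y) * aeval y (derivative A) = (k : K) * (x - y) ^ 2 := by
        have h2 := congrArg (fun z : OO K => (z : K)) hk
        have e1 : (⟨y, hy⟩ : OO K) + ((⟨x, hx⟩ : OO K) - (⟨y, hy⟩ : OO K)) = ⟨x, hx⟩ := by ring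
        rw [e1, ← der_up] at h2
        have h3 : aeval x A = aeval y A + aeval y (derivative A) * (x - y) + (k : K) * (x - y) ^ 2 := by
          have a1 := aeval_up A (⟨x, hx⟩ : OO K)
          have a2 := aeval_up A (⟨y, hy⟩ : OO K)
          have a3 := aeval_up (derivative A) (⟨y, hy⟩ : OO K)
          calc aeval x A = (((up A : (OO K)[X]).eval (⟨x, hx⟩ : OO K) : OO K) : K) := a1
            _ = (((up A : (OO K)[X]).eval (⟨y, hy⟩ : OO K) : OO K) : K) +
                (((up (derivative A) : (OO K)[X]).eval (⟨y, hy⟩ : OO K) : OO K) : K) * (x - y) +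
                (k : K) * (x - y) ^ 2 := h2
            _ = _ := by rw [← a2, ← a3]
        rw [h3]
        ring
      rw [h1, norm_mul, norm_pow]
      exact mul_le_of_le_one_left (by positivity) (nle k)

end Pool.Agent.ZPU.H75
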