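import Pool.Agent.ZPU.Stmts

/-! ZPU, row FA1 (from the congruence to a polynomial identity). -/

set_option autoImplicit false

namespace Pool.Agent.ZPU.H75

open Polynomial Pool.Agent.ZPU

section

variable {k : Type} [Field k]

theorem coeff0_mul (a b : k[X]) : (a * b).coeff 0 = a.coeff 0 * b.coeff 0 := mul_coeff_zero a b

theorem coeff0_pow (a : k[X]) (n : ℕ) : (a ^ n).coeff 0 = (a.coeff 0) ^ n := by
  rw [coeff_zero_eq_eval_zero, coeff_zero_eq_eval_zero, eval_pow]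

theorem wr_Cmul (A B : k[X]) (ω : k) : wr A (C ω * B) = C ω * wr A B := by
  unfold wr
  rw [derivative_C_mul]
  ring

theorem wr_sub_self (A b : k[X]) : wr (A - b) b = wr A b := by
  unfold wr
  rw [derivative_sub]
  ring

theorem wr_add_self (A b : k[X]) : wr (A + b) b = wr A b := by
  unfold wr
  rw [derivative_add]
  ring

theorem dvd_drop {N a b T : k[X]} (h : N ∣ a) (e : a = b + T) (hT : N ∣ T) : N ∣ b := by
  have h1 : b = a - T := by rw [e]; ring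
  rw [h1]
  exact dvd_sub h hT

theorem ne_of_coeff {a : k[X]} (h : a.coeff 0 ≠ 0) : a ≠ 0 := by
  intro h0
  rw [h0] at h
  simp at h

theorem nd_mul {a b : k[X]} {m n : ℕ} (ha : a.natDegree ≤ m) (hb : b.natDegree ≤ n) :
    (a * b).natDegree ≤ m + n := natDegree_mul_le.trans (add_le_add ha hb)

theorem nd_cast_mul {a : k[X]} {m : ℕ} (c : ℕ) (ha : a.natDegree ≤ m) :
    ((c : k[X]) * a).natDegree ≤ m := by
  have h1 := nd_mul (a := (c : k[X])) (b := a) (m := 0) (n := m) (natDegree_natCast c).le ha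
  omega

end

theorem fa1 (hphi : PHIStmt) (hfal : FALStmt) (hfml : FMLStmt) : FA1Stmt := by
  intro p hp k _ _ D A B E₁ E₂ w₁ w₂ M E ω c n e h s hpD hA hB hE1 hE2 hw1 hw2 hω hc hn he heD
    huM hEE a0 b0 e20 w10 w20 m0 ee0 hwr hAL hdvd
  obtain ⟨f1, f2, f3, _, _, f6⟩ := hfml
  have hp3 : 3 ≤ p := by omega
  obtain ⟨ph1, ph2⟩ := hphi p hp hp3 k (A - C ω * B) (C ω * B)
  have hX : (X : k[X]) ∣ A - C ω * B := by
    rw [huM]
    exact Dvd.dvd.mul_right (dvd_pow_self X (by omega)) M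
  have u0 : (A - C ω * B).coeff 0 = 0 := by
    rw [← X_dvd_iff]
    exact hX
  have bb0 : (C ω * B).coeff 0 ≠ 0 := by
    rw [coeff0_mul, coeff_C_zero]
    exact mul_ne_zero hω b0
  have l0 := ph2 u0 bb0
  -- names
  obtain ⟨b, hb⟩ : ∃ b : k[X], b = C ω * B := ⟨_, rfl⟩
  obtain ⟨L, hL⟩ : ∃ L : k[X], L = L1 p (fun j => C (lc k j)) (A - C ω * B) (C ω * B) := ⟨_, rfl⟩
  have hfal' := hfal p hp k A B E₂ w₁ w₂ M E L b c n e h s
  simp only at hfal'
  have eL : IdL p A B E₂ w₂ M ω n e h s =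
      (M * L) ^ (e * h) * b ^ (e * h) * E₂ ^ (n * h) * w₂ ^ e * B ^ s := by
    unfold IdL
    rw [hL, hb]
  have eR : IdR p A B w₁ E ω c n e h s = C c * b ^ (p * (e * h)) * E ^ (n * h) * w₁ ^ e * A ^ s := by
    unfold IdR
    rw [hb]
  rw [← eL, ← eR, ← hEE, ← huM] at hfal'
  rw [← hL] at ph1 l0
  rw [← hb] at ph1 huM hX u0 bb0 hfal'
  rw [show A - b + b = A by ring, wr_sub_self] at ph1
  -- step 1
  have s1 := f1 k (p - 1 - D) _ _ hdvd
  -- the sum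
  obtain ⟨G, hG⟩ : ∃ G : k[X], G = E₁ * E₂ * (w₁ * w₂) := ⟨_, rfl⟩
  obtain ⟨R₂, hR2⟩ : ∃ R₂ : k[X], R₂ = ((n * h : ℕ) : k[X]) * wr E₁ E₂ * (w₁ * w₂) * (A * B) +
        (e : k[X]) * wr w₁ w₂ * (E₁ * E₂) * (A * B) + (s : k[X]) * wr A B * (E₁ * E₂) * (w₁ * w₂) :=
    ⟨_, rfl⟩
  obtain ⟨Φ, hΦ⟩ : ∃ Φ : k[X], Φ = (A - b) * b * L := ⟨_, rfl⟩
  rw [← hR2, ← hΦ] at hfal'
  rw [← hΦ] at ph1
  have s2 : X ^ (p - 1 - D - 1) ∣ (IdL p A B E₂ w₂ M ω n e h s * IdR p A B w₁ E ω c n e h s) *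
      (((e * h : ℕ) : k[X]) * derivative Φ * (G * (A * B)) - Φ * R₂) := by
    rw [hG, ← hfal']
    exact Dvd.dvd.mul_right s1 _
  have cLR : (IdL p A B E₂ w₂ M ω n e h s * IdR p A B w₁ E ω c n e h s).coeff 0 ≠ 0 := by
    rw [eL, eR]
    simp only [coeff0_mul, coeff0_pow, coeff_C_zero]
    refine mul_ne_zero (mul_ne_zero (mul_ne_zero (mul_ne_zero (mul_ne_zero ?_ ?_) ?_) ?_) ?_)
      (mul_ne_zero (mul_ne_zero (mul_ne_zero (mul_ne_zero hc ?_) ?_) ?_) ?_)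
    · exact pow_ne_zero _ (mul_ne_zero m0 l0)
    · exact pow_ne_zero _ bb0
    · exact pow_ne_zero _ e20
    · exact pow_ne_zero _ w20
    · exact pow_ne_zero _ b0
    · exact pow_ne_zero _ bb0
    · exact pow_ne_zero _ ee0
    · exact pow_ne_zero _ w10
    · exact pow_ne_zero _ a0
  have s3 := f2 k _ _ _ cLR s2
  have hu1 : (X : k[X]) ^ (p - 1 - D - 1) ∣ (A - b) ^ (p - 1) :=
    (pow_dvd_pow _ (by omega)).trans (pow_dvd_pow_of_dvd hX (p - 1))
  have ewr : wr A b = C ω * wr A B := by rw [hb, wr_Cmul]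
  have hbp : b ^ p = b ^ (p - 1) * b := by
    rw [← pow_succ]
    congr 1
    omega
  obtain ⟨R₁, hR1⟩ : ∃ R₁ : k[X], R₁ = ((e * h : ℕ) : k[X]) * (wr A B * G) := ⟨_, rfl⟩
  have s4 : X ^ (p - 1 - D - 1) ∣ A * (b ^ p * R₁ - Φ * R₂) := by
    refine dvd_drop (T := -((A - b) ^ (p - 1) * (((e * h : ℕ) : k[X]) * wr A b * (G * (A * B)))))
      (Dvd.dvd.mul_left s3 A) ?_ ?_
    · calc A * (((e * h : ℕ) : k[X]) * derivative Φ * (G * (A * B)) - Φ * R₂)
          = ((e * h : ℕ) : k[X]) * (A * derivative Φ) * (G * (A * B)) - A * (Φ * R₂) := by ring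
        _ = ((e * h : ℕ) : k[X]) * (wr A b * (b ^ (p - 1) - (A - b) ^ (p - 1))) * (G * (A * B)) -
            A * (Φ * R₂) := by rw [ph1]
        _ = ((e * h : ℕ) : k[X]) * (C ω * wr A B) * b ^ (p - 1) * (G * (A * B)) - A * (Φ * R₂) -
            (A - b) ^ (p - 1) * (((e * h : ℕ) : k[X]) * wr A b * (G * (A * B))) := by
              rw [ewr]; ring
        _ = A * (b ^ (p - 1) * (C ω * B) * R₁ - Φ * R₂) -
            (A - b) ^ (p - 1) * (((e * h : ℕ) : k[X]) * wr A b * (G * (A * B))) := by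
              rw [hR1]; ring
        _ = _ := by rw [hbp, ← hb]; ring
    · exact (dvd_neg.2 (Dvd.dvd.mul_right hu1 _))
  have s5 := f2 k _ _ _ a0 s4
  -- degrees
  have dG : G.natDegree ≤ 4 * D := by
    rw [hG]
    have := nd_mul (nd_mul hE1 hE2) (nd_mul hw1 hw2)
    omega
  have dAB : (A * B).natDegree ≤ 2 * D := by
    have := nd_mul hA hB
    omega
  have dW : (wr A B).natDegree ≤ 2 * D := by
    have := f6 k D D A B hA hB
    omega
  have dR1 : R₁.natDegree ≤ 6 * D := by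
    rw [hR1]
    have := nd_cast_mul (e * h) (nd_mul dW dG)
    omega
  have dR2 : R₂.natDegree ≤ 6 * D := by
    rw [hR2]
    have g1 : (((n * h : ℕ) : k[X]) * wr E₁ E₂ * (w₁ * w₂) * (A * B)).natDegree ≤ 6 * D := by
      have := nd_mul (nd_mul (nd_cast_mul (n * h) (f6 k D D E₁ E₂ hE1 hE2)) (nd_mul hw1 hw2)) dAB
      omega
    have g2 : ((e : k[X]) * wr w₁ w₂ * (E₁ * E₂) * (A * B)).natDegree ≤ 6 * D := by
      have := nd_mul (nd_mul (nd_cast_mul e (f6 k D D w₁ w₂ hw1 hw2)) (nd_mul hE1 hE2)) dAB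
      omega
    have g3 : ((s : k[X]) * wr A B * (E₁ * E₂) * (w₁ * w₂)).natDegree ≤ 6 * D := by
      have := nd_mul (nd_mul (nd_cast_mul s dW) (nd_mul hE1 hE2)) (nd_mul hw1 hw2)
      omega
    exact natDegree_add_le_of_degree_le (natDegree_add_le_of_degree_le g1 g2) g3
  have bp0 : ∀ N : ℕ, (b ^ N).coeff 0 ≠ 0 := by
    intro N
    rw [coeff0_pow]
    exact pow_ne_zero _ bb0
  have hG0 : G ≠ 0 := by
    rw [hG, hEE]
    exact mul_ne_zero (mul_ne_zero (mul_ne_zero (pow_ne_zero _ X_ne_zero) (ne_of_coeff ee0))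
      (ne_of_coeff e20)) (mul_ne_zero (ne_of_coeff w10) (ne_of_coeff w20))
  have hE0 : E₁ * E₂ ≠ 0 := by
    rw [hEE]
    exact mul_ne_zero (mul_ne_zero (pow_ne_zero _ X_ne_zero) (ne_of_coeff ee0)) (ne_of_coeff e20)
  have hR20 : R₂ ≠ 0 := by
    intro hz
    rw [hz, mul_zero, sub_zero] at s5
    have s6 := f2 k _ _ _ (bp0 p) s5
    have s7 := f3 k _ _ s6 (by omega)
    rw [hR1] at s7
    have s8 : ((e * h : ℕ) : k[X]) = 0 := by
      rcases mul_eq_zero.1 s7 with h1 | h1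
      · exact h1
      · exact absurd h1 (mul_ne_zero hwr hG0)
    have s9 : p ∣ e * h := by
      have h1 : ((e * h : ℕ) : k) = 0 := by
        have h2 := congrArg (fun q : k[X] => q.coeff 0) s8
        simpa using h2
      exact (CharP.cast_eq_zero_iff k p _).1 h1
    have s10 : p ∣ h := by
      rcases (Nat.Prime.dvd_mul hp).1 s9 with h1 | h1
      · exact absurd (Nat.le_of_dvd (by omega) h1) (by omega)
      · exact h1
    have s11 : ((n * h : ℕ) : k[X]) = 0 := by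
      have h1 : ((n * h : ℕ) : k) = 0 := (CharP.cast_eq_zero_iff k p _).2 (Dvd.dvd.mul_left s10 n)
      rw [← C_eq_natCast, h1, C_0]
    have s12 : R₂ = (E₁ * E₂) * ((e : k[X]) * (wr w₁ w₂ * (A * B)) +
        (s : k[X]) * (wr A B * (w₁ * w₂))) := by
      rw [hR2, s11]
      ring
    rw [s12] at hz
    exact mul_ne_zero hE0 hAL hz
  -- elimination
  have s6 : X ^ (p - 1 - D - 1 - 1) ∣ wr (b ^ p * R₁ - Φ * R₂ + R₂) R₂ := by
    refine f1 k _ _ _ ?_
    rw [add_sub_cancel_right]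
    exact s5
  rw [wr_add_self] at s6
  have hdp : derivative (b ^ p) = 0 := by
    rw [derivative_pow, CharP.cast_eq_zero]
    simp
  have s7 : wr (b ^ p * R₁ - Φ * R₂) R₂ = b ^ p * wr R₁ R₂ - derivative Φ * R₂ ^ 2 := by
    unfold wr
    rw [derivative_sub, derivative_mul, derivative_mul, hdp]
    ring
  rw [s7] at s6
  have hu2 : (X : k[X]) ^ (p - 1 - D - 1 - 1) ∣ (A - b) ^ (p - 1) :=
    (pow_dvd_pow _ (by omega)).trans (pow_dvd_pow_of_dvd hX (p - 1))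
  have s8 : X ^ (p - 1 - D - 1 - 1) ∣ (b ^ (p - 1) * C ω) *
      (wr R₁ R₂ * (A * B) - R₂ ^ 2 * wr A B) := by
    refine dvd_drop (T := (A - b) ^ (p - 1) * (wr A b * R₂ ^ 2)) (Dvd.dvd.mul_left s6 A) ?_ ?_
    · calc A * (b ^ p * wr R₁ R₂ - derivative Φ * R₂ ^ 2)
          = A * (b ^ p * wr R₁ R₂) - (A * derivative Φ) * R₂ ^ 2 := by ring
        _ = A * (b ^ (p - 1) * (C ω * B) * wr R₁ R₂) -
            wr A b * (b ^ (p - 1) - (A - b) ^ (p - 1)) * R₂ ^ 2 := by rw [ph1, hbp, ← hb]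
        _ = (b ^ (p - 1) * C ω) * (wr R₁ R₂ * (A * B) - R₂ ^ 2 * wr A B) +
            (A - b) ^ (p - 1) * (wr A b * R₂ ^ 2) := by rw [ewr]; ring
    · exact Dvd.dvd.mul_right hu2 _
  have c8 : (b ^ (p - 1) * C ω).coeff 0 ≠ 0 := by
    rw [coeff0_mul, coeff_C_zero]
    exact mul_ne_zero (bp0 _) hω
  have s9 := f2 k _ _ _ c8 s8
  have dfin : (wr R₁ R₂ * (A * B) - R₂ ^ 2 * wr A B).natDegree ≤ 14 * D := by
    refine (natDegree_sub_le _ _).trans (max_le ?_ ?_)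
    · have := nd_mul (f6 k (6 * D) (6 * D) R₁ R₂ dR1 dR2) dAB
      omega
    · have h1 : (R₂ ^ 2).natDegree ≤ 12 * D := by
        rw [pow_two]
        have := nd_mul dR2 dR2
        omega
      have := nd_mul h1 dW
      omega
  have s10 := f3 k _ _ s9 (by omega)
  exact ⟨R₁, R₂, hR20, by omega, sub_eq_zero.1 s10⟩

end Pool.Agent.ZPU.H75
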