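import Pool.Agent.Helper75_ZPU.EVO

/-! ZPU, row TAM (the tame case). -/

set_option autoImplicit false

namespace Pool.Agent.ZPU.H75

open Polynomial Pool.Agent.ZPU Pool.Agent.ZPT Pool.Agent.ZP3

section

variable {K : Type} [NormedField K] [IsUltrametricDist K]

theorem nadd {a b : K} {ε : ℝ} (ha : ‖a‖ ≤ ε) (hb : ‖b‖ ≤ ε) : ‖a + b‖ ≤ ε :=
  (IsUltrametricDist.norm_add_le_max _ _).trans (max_le ha hb)

theorem nsub {a b : K} {ε : ℝ} (ha : ‖a‖ ≤ ε) (hb : ‖b‖ ≤ ε) : ‖a - b‖ ≤ ε := by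
  rw [sub_eq_add_neg]
  exact nadd ha (by rwa [norm_neg])

theorem nadd_lt {a b : K} {ε : ℝ} (ha : ‖a‖ < ε) (hb : ‖b‖ < ε) : ‖a + b‖ < ε :=
  lt_of_le_of_lt (IsUltrametricDist.norm_add_le_max _ _) (max_lt ha hb)

theorem nsub_lt {a b : K} {ε : ℝ} (ha : ‖a‖ < ε) (hb : ‖b‖ < ε) : ‖a - b‖ < ε := by
  rw [sub_eq_add_neg]
  exact nadd_lt ha (by rwa [norm_neg])

/-- if `‖a - b‖ < ‖b‖` then `‖a‖ = ‖b‖`. -/
theorem neq {a b : K} (h : ‖a - b‖ < ‖b‖) : ‖a‖ = ‖b‖ := by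
  have h1 : a = (a - b) + b := by ring
  apply le_antisymm
  · rw [h1]
    exact nadd h.le le_rfl
  · by_contra h2
    push Not at h2
    have h3 : ‖b‖ < ‖b‖ := by
      have h4 : b = a - (a - b) := by ring
      calc ‖b‖ = ‖a - (a - b)‖ := by rw [← h4]
        _ < ‖b‖ := nsub_lt h2 h
    exact lt_irrefl _ h3

end

theorem ur_aeval (hurr : URRStmt) {p : ℕ} (hp : p.Prime) {K : Type} [NormedField K] [CharZero K]
    [IsUltrametricDist K] (hE : Ext p K) (A : ℤ[X]) {x : K} (hx : Ur p x) : Ur p (aeval x A) := by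
  obtain ⟨ur1, _, ur3, _, _⟩ := hurr p hp K hE
  induction A using Polynomial.induction_on' with
  | add P Q hP hQ =>
    rw [map_add]
    exact (ur1 _ _ hP hQ).1
  | monomial n a =>
    rw [aeval_monomial]
    have h1 : Ur p (algebraMap ℤ K a) := ur3 a
    have h2 : Ur p (x ^ n) := by
      induction n with
      | zero =>
        rw [pow_zero]
        have := ur3 1
        rwa [Int.cast_one] at this
      | succ n ih =>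
        rw [pow_succ]
        exact (ur1 _ _ ih hx).2.1
    exact (ur1 _ _ h1 h2).2.1

theorem tam (htbd : TBDStmt) (homg : OMGStmt) (hryc : RYCStmt) (hdpo : DPOStmt) (htef : TEFStmt)
    (hevo : EVOStmt) (hurr : URRStmt) : TAMStmt := by
  intro p hp K _ _ _ _ hE A₁ B₁ A₂ B₂ hInd
  obtain ⟨_, _, _, _, _, _, ev7⟩ := hevo K
  obtain ⟨te1, te2, te3, te4⟩ := htef p hp K hE
  obtain ⟨ur1, ur2, ur3, ur4, ur5⟩ := hurr p hp K hE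
  obtain ⟨a₁, ha₁⟩ := (hdpo p hp A₁).1
  obtain ⟨b₁, hb₁⟩ := (hdpo p hp B₁).1
  obtain ⟨a₂, ha₂⟩ := (hdpo p hp A₂).1
  obtain ⟨b₂, hb₂⟩ := (hdpo p hp B₂).1
  have hΩ := homg p hp A₁ B₁ A₂ B₂ a₁ b₁ a₂ b₂ hInd ha₁ hb₁ ha₂ hb₂
  have hW : bar p (wr A₁ B₁) ≠ 0 := by
    have : Fact p.Prime := ⟨hp⟩
    intro h0
    have h1 : wr (bar p A₁) (bar p B₁) = bar p (wr A₁ B₁) := by
      unfold wr bar
      rw [Polynomial.map_sub, Polynomial.map_mul, Polynomial.map_mul, derivative_map,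
        derivative_map]
    have h2 := hInd 1 0 (by rw [h1, h0, C_0]; ring)
    exact one_ne_zero h2.1
  obtain ⟨M₁, hM₁, hT₁⟩ := htbd p hp K hE A₁ B₁ (wr A₁ B₁) hW
  obtain ⟨M₂, hM₂, hT₂⟩ := htbd p hp K hE (A₁.comp (X ^ p)) (B₁.comp (X ^ p))
    ((a₁ * B₁ ^ p - b₁ * A₁ ^ p) * wr A₂ B₂ ^ p - (a₂ * B₂ ^ p - b₂ * A₂ ^ p) * wr A₁ B₁ ^ p) hΩ
  refine ⟨M₁ * M₂, Nat.one_le_iff_ne_zero.2 (Nat.mul_ne_zero (by omega) (by omega)), ?_⟩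
  intro t t₀ ζ₁ ζ₂ ht₀ hy hζ₁ hζ₂ hB1 hQ1 hQ2
  have hp1 : (1 : ℝ) < p := by exact_mod_cast hp.one_lt
  have hpi0 : (0 : ℝ) < (p : ℝ)⁻¹ := by positivity
  have hpi : (p : ℝ)⁻¹ < 1 := inv_lt_one_of_one_lt₀ hp1
  have hpi2 : ((p : ℝ)⁻¹) ^ 2 < (p : ℝ)⁻¹ := by
    rw [pow_two]
    exact mul_lt_of_lt_one_left hpi0 hpi
  have nt₀ : ‖t₀‖ ≤ 1 := (te1 t₀ ht₀).2.1
  have nt : ‖t‖ ≤ 1 := by
    have h1 : t = (t - t₀) + t₀ := by ring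
    rw [h1]
    exact nadd hy.le nt₀
  have nζ : ‖ζ₁‖ = 1 := (te2 ζ₁ hζ₁).2.1.2
  have dB := (ev7 B₁ t t₀ nt nt₀)
  have dA := (ev7 A₁ t t₀ nt nt₀)
  have nB0 : ‖aeval t₀ B₁‖ = 1 := by
    have h1 : ‖aeval t₀ B₁ - aeval t B₁‖ < ‖aeval t B₁‖ := by
      rw [hB1, norm_sub_rev]
      exact lt_of_le_of_lt dB.2.1 hy
    rw [neq h1, hB1]
  have hQd : ‖(aeval t A₁ - ζ₁ * aeval t B₁) - (aeval t₀ A₁ - ζ₁ * aeval t₀ B₁)‖ ≤ ‖t - t₀‖ := by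
    have h1 : (aeval t A₁ - ζ₁ * aeval t B₁) - (aeval t₀ A₁ - ζ₁ * aeval t₀ B₁) =
        (aeval t A₁ - aeval t₀ A₁) - ζ₁ * (aeval t B₁ - aeval t₀ B₁) := by ring
    rw [h1]
    refine nsub dA.2.1 ?_
    rw [norm_mul, nζ, one_mul]
    exact dB.2.1
  have hQ0 : ‖aeval t₀ A₁ - ζ₁ * aeval t₀ B₁‖ < 1 := by
    have h1 : aeval t₀ A₁ - ζ₁ * aeval t₀ B₁ = (aeval t A₁ - ζ₁ * aeval t B₁) -
        ((aeval t A₁ - ζ₁ * aeval t B₁) - (aeval t₀ A₁ - ζ₁ * aeval t₀ B₁)) := by ring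
    rw [h1]
    exact nsub_lt (lt_of_le_of_lt hQ1 (hpi2.trans hpi)) (lt_of_le_of_lt hQd hy)
  by_cases hW0 : ‖aeval t₀ (wr A₁ B₁)‖ < 1
  · rw [pow_mul, hT₁ t₀ ζ₁ ht₀ hW0 hζ₁ nB0 hQ0, one_pow]
  have hW1 : ‖aeval t₀ (wr A₁ B₁)‖ = 1 :=
    le_antisymm (ev7 (wr A₁ B₁) t₀ t₀ nt₀ nt₀).1 (not_lt.1 hW0)
  -- the derivative
  have hQ' : ‖aeval t₀ (derivative A₁) - ζ₁ * aeval t₀ (derivative B₁)‖ = 1 := by
    have h1 : aeval t₀ B₁ * (aeval t₀ (derivative A₁) - ζ₁ * aeval t₀ (derivative B₁)) -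
        aeval t₀ (wr A₁ B₁) = aeval t₀ (derivative B₁) * (aeval t₀ A₁ - ζ₁ * aeval t₀ B₁) := by
      unfold wr
      rw [map_sub, map_mul, map_mul]
      ring
    have h2 : ‖aeval t₀ B₁ * (aeval t₀ (derivative A₁) - ζ₁ * aeval t₀ (derivative B₁)) -
        aeval t₀ (wr A₁ B₁)‖ < ‖aeval t₀ (wr A₁ B₁)‖ := by
      rw [h1, hW1, norm_mul]
      have h3 := (ev7 (derivative B₁) t₀ t₀ nt₀ nt₀).1
      calc ‖aeval t₀ (derivative B₁)‖ * ‖aeval t₀ A₁ - ζ₁ * aeval t₀ B₁‖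
          ≤ 1 * ‖aeval t₀ A₁ - ζ₁ * aeval t₀ B₁‖ := mul_le_mul_of_nonneg_right h3 (norm_nonneg _)
        _ < 1 := by rwa [one_mul]
    have h4 := neq h2
    rw [norm_mul, nB0, one_mul, hW1] at h4
    exact h4
  have hTay : ‖(aeval t A₁ - ζ₁ * aeval t B₁) - (aeval t₀ A₁ - ζ₁ * aeval t₀ B₁) -
      (t - t₀) * (aeval t₀ (derivative A₁) - ζ₁ * aeval t₀ (derivative B₁))‖ ≤ ‖t - t₀‖ ^ 2 := by
    have h1 : (aeval t A₁ - ζ₁ * aeval t B₁) - (aeval t₀ A₁ - ζ₁ * aeval t₀ B₁) -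
      (t - t₀) * (aeval t₀ (derivative A₁) - ζ₁ * aeval t₀ (derivative B₁)) =
      (aeval t A₁ - aeval t₀ A₁ - (t - t₀) * aeval t₀ (derivative A₁)) -
      ζ₁ * (aeval t B₁ - aeval t₀ B₁ - (t - t₀) * aeval t₀ (derivative B₁)) := by ring
    rw [h1]
    refine nsub dA.2.2 ?_
    rw [norm_mul, nζ, one_mul]
    exact dB.2.2
  have uQ0 : Ur p (aeval t₀ A₁ - ζ₁ * aeval t₀ B₁) := by
    have u1 := ur_aeval hurr hp hE A₁ (te1 t₀ ht₀).1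
    have u2 := ur_aeval hurr hp hE B₁ (te1 t₀ ht₀).1
    have u3 := (te2 ζ₁ hζ₁).2.1.1
    exact (ur1 _ _ u1 (ur1 _ _ u3 u2).2.1).2.2.2
  have hyp : ‖t - t₀‖ ≤ (p : ℝ)⁻¹ := by
    by_contra h0
    push Not at h0
    have hy0 : 0 < ‖t - t₀‖ := hpi0.trans h0
    have h1 : ‖-(aeval t₀ A₁ - ζ₁ * aeval t₀ B₁) -
        (t - t₀) * (aeval t₀ (derivative A₁) - ζ₁ * aeval t₀ (derivative B₁))‖ < ‖t - t₀‖ := by
      have h2 : -(aeval t₀ A₁ - ζ₁ * aeval t₀ B₁) -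
        (t - t₀) * (aeval t₀ (derivative A₁) - ζ₁ * aeval t₀ (derivative B₁)) =
        ((aeval t A₁ - ζ₁ * aeval t B₁) - (aeval t₀ A₁ - ζ₁ * aeval t₀ B₁) -
        (t - t₀) * (aeval t₀ (derivative A₁) - ζ₁ * aeval t₀ (derivative B₁))) -
        (aeval t A₁ - ζ₁ * aeval t B₁) := by ring
      rw [h2]
      refine nsub_lt (lt_of_le_of_lt hTay ?_) (lt_of_le_of_lt hQ1 (hpi2.trans h0))
      rw [pow_two]
      exact mul_lt_of_lt_one_left hy0 hy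
    have h3 : ‖(t - t₀) * (aeval t₀ (derivative A₁) - ζ₁ * aeval t₀ (derivative B₁))‖ =
        ‖t - t₀‖ := by rw [norm_mul, hQ', mul_one]
    have h4 := neq (a := -(aeval t₀ A₁ - ζ₁ * aeval t₀ B₁))
      (b := (t - t₀) * (aeval t₀ (derivative A₁) - ζ₁ * aeval t₀ (derivative B₁)))
      (by rw [h3]; exact h1)
    rw [norm_neg, h3] at h4
    have h5 := ur4 _ uQ0 hQ0
    rw [h4] at h5
    exact absurd h5 (not_le.2 h0)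
  -- Raynaud
  obtain ⟨s, hs, hsp⟩ := (te1 t₀ ht₀).2.2.2
  obtain ⟨η₁, hη₁, hη₁p⟩ := (te2 ζ₁ hζ₁).2.2
  obtain ⟨η₂, hη₂, hη₂p⟩ := (te2 ζ₂ hζ₂).2.2
  have ns : ‖s‖ ≤ 1 := (te1 s hs).2.1
  have R1 := hryc p hp K hE A₁ B₁ a₁ b₁ ha₁ hb₁ t s η₁ hs hη₁ (by rw [hsp]; exact hyp)
    (by rw [hη₁p]; exact hQ1)
  have R2 := hryc p hp K hE A₂ B₂ a₂ b₂ ha₂ hb₂ t s η₂ hs hη₂ (by rw [hsp]; exact hyp)
    (by rw [hη₂p]; exact hQ2)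
  have w1 := (ev7 (wr A₁ B₁) s s ns ns).1
  have w2 := (ev7 (wr A₂ B₂) s s ns ns).1
  have hel : ‖(p : K) * aeval s ((a₁ * B₁ ^ p - b₁ * A₁ ^ p) * wr A₂ B₂ ^ p -
      (a₂ * B₂ ^ p - b₂ * A₂ ^ p) * wr A₁ B₁ ^ p)‖ ≤ ((p : ℝ)⁻¹) ^ 2 := by
    have h1 : (p : K) * aeval s ((a₁ * B₁ ^ p - b₁ * A₁ ^ p) * wr A₂ B₂ ^ p -
      (a₂ * B₂ ^ p - b₂ * A₂ ^ p) * wr A₁ B₁ ^ p) =
      ((p : K) * (aeval s a₁ * aeval s B₁ ^ p - aeval s b₁ * aeval s A₁ ^ p) +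
        aeval s (wr A₁ B₁) ^ p * (t - s ^ p)) * aeval s (wr A₂ B₂) ^ p -
      ((p : K) * (aeval s a₂ * aeval s B₂ ^ p - aeval s b₂ * aeval s A₂ ^ p) +
        aeval s (wr A₂ B₂) ^ p * (t - s ^ p)) * aeval s (wr A₁ B₁) ^ p := by
      simp only [map_sub, map_mul, map_pow]
      ring
    rw [h1]
    refine nsub ?_ ?_
    · rw [norm_mul, norm_pow]
      exact (mul_le_of_le_one_right (norm_nonneg _) (pow_le_one₀ (norm_nonneg _) w2)).trans R1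
    · rw [norm_mul, norm_pow]
      exact (mul_le_of_le_one_right (norm_nonneg _) (pow_le_one₀ (norm_nonneg _) w1)).trans R2
  have np : ‖(p : K)‖ = (p : ℝ)⁻¹ := by
    have : Fact p.Prime := ⟨hp⟩
    have h1 := hE (p : ℚ)
    rw [padicNorm.padicNorm_p_of_prime] at h1
    push_cast at h1
    exact h1
  have hΩs : ‖aeval s ((a₁ * B₁ ^ p - b₁ * A₁ ^ p) * wr A₂ B₂ ^ p -
      (a₂ * B₂ ^ p - b₂ * A₂ ^ p) * wr A₁ B₁ ^ p)‖ < 1 := by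
    rw [norm_mul, np, pow_two] at hel
    have h1 := le_of_mul_le_mul_left hel hpi0
    exact lt_of_le_of_lt h1 hpi
  have cB : ∀ A : ℤ[X], aeval s (A.comp (X ^ p)) = aeval t₀ A := by
    intro A
    rw [aeval_comp, map_pow, aeval_X, hsp]
  have hfin := hT₂ s ζ₁ hs hΩs hζ₁ (by rw [cB]; exact nB0) (by rw [cB, cB]; exact hQ0)
  rw [mul_comm, pow_mul, hfin, one_pow]

end Pool.Agent.ZPU.H75
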