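import Pool.Agent.Helper75_ZPU.EVO

/-! ZPU, row WLD (conclusion: the root of unity is tame). -/

set_option autoImplicit false

namespace Pool.Agent.ZPU.H75

open Polynomial Pool.Agent.ZPU Pool.Agent.ZPT Pool.Agent.ZP3

theorem bar_natDegree (p : ℕ) (A : ℤ[X]) : (bar p A).natDegree ≤ A.natDegree := by
  unfold bar
  exact natDegree_map_le

theorem wld (hrff : RFFStmt) (hspl : SPLStmt) (hwpr : WPRStmt) (hwz1 : WZ1Stmt) (hwz2 : WZ2Stmt)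
    (hfa1 : FA1Stmt) (hfa2 : FA2Stmt) (hshr : SHRStmt) (htef : TEFStmt) : WLDStmt := by
  intro p hp K _ _ _ hE D A B E₁ E₂ w₁ w₂ h hpD hA hB hE1 hE2 hw1 hw2 hAL hSg hwr hbE t t₀ ζ x Q hwd
  obtain ⟨ω, η, hζ, hω, hη⟩ := hspl p hp K ζ hwd.rz
  rcases hη with hη | ⟨a, ha, hη⟩
  · rw [hζ, hη, mul_one]
    exact hω
  exfalso
  obtain ⟨k, _, _, r, hr⟩ := hrff p hp K hE
  obtain ⟨τ, o, n, e, ξ, M, E, hwp⟩ := hwpr p hp K hE k r hr D A B E₁ E₂ w₁ w₂ h hpD hA hB hE1 hwr hbE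
    t t₀ ζ x Q ω η a hwd hζ hω ha hη
  by_cases ha2 : 2 ≤ a
  · exact hwz2 p hp K hE k r hr D A B E₁ E₂ w₁ w₂ h hpD hA hB hw1 hw2 hAL t t₀ ζ x Q ω η a hwd hζ hω
      ha2 hη τ o n e ξ M E hwp
  have ha1 : a = 1 := by omega
  subst ha1
  rw [pow_one] at hη
  obtain ⟨c, s, hc, hdvd⟩ := hwz1 p hp K hE k r hr D A B E₁ E₂ w₁ w₂ h hpD t t₀ ζ x Q ω η hwd hζ hω
    hη τ o n e ξ M E hwp
  obtain ⟨sh1, sh2, sh3⟩ := hshr p hp k
  obtain ⟨te1, te2, te3, te4⟩ := htef p hp K hE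
  obtain ⟨_, _, _, _, _, _, ev7⟩ := evo K
  have deg : ∀ A : ℤ[X], A.natDegree ≤ D → (tt p (r τ) (bar p A)).natDegree ≤ D := by
    intro A hA
    rw [(sh1 (r τ) (bar p A) (bar p A)).2.2.2.2.2.1]
    exact (bar_natDegree p A).trans hA
  have ht0 : ‖t₀‖ ≤ 1 := (te1 t₀ hwd.te).2.1
  have ht : ‖t‖ ≤ 1 := by
    have h1 : t = (t - t₀) + t₀ := by ring
    rw [h1]
    exact (IsUltrametricDist.norm_add_le_max _ _).trans (max_le hwd.ht.le ht0)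
  have c0 : ∀ A : ℤ[X], ‖aeval t A‖ = 1 → (tt p (r τ) (bar p A)).coeff 0 ≠ 0 := by
    intro A hA1 h0
    rw [← (sh3 K r hr A τ).2, hwp.τ0] at h0
    have h1 := (ev7 A t t₀ ht ht0).2.1
    have h2 : aeval t A = (aeval t A - aeval t₀ A) + aeval t₀ A := by ring
    have h3 : ‖aeval t A‖ < 1 := by
      rw [h2]
      exact lt_of_le_of_lt (IsUltrametricDist.norm_add_le_max _ _)
        (max_lt (lt_of_le_of_lt h1 hwd.ht) h0)
    rw [hA1] at h3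
    exact lt_irrefl _ h3
  have hro : r o ≠ 0 := by
    intro h0
    rw [hr, hwp.o0, (te2 ω hω).2.1.2] at h0
    exact lt_irrefl _ h0
  have rsh : ∀ A : ℤ[X], (sh A τ).map r = tt p (r τ) (bar p A) := fun A => (sh3 K r hr A τ).1
  have hM : tt p (r τ) (bar p A) - C (r o) * tt p (r τ) (bar p B) = X ^ n * M.map r := by
    have h1 := hwp.mM
    rw [Polynomial.map_sub, Polynomial.map_mul, map_C, rsh, rsh] at h1
    exact h1
  have hEE : tt p (r τ) (bar p E₁) = X ^ e * E.map r := by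
    have h1 := hwp.mE
    rw [rsh] at h1
    exact h1
  have hwr' : wr (tt p (r τ) (bar p A)) (tt p (r τ) (bar p B)) ≠ 0 := by
    rw [(sh1 (r τ) (bar p A) (bar p B)).2.2.2.1]
    intro h0
    exact hwr ((sh1 (r τ) (wr (bar p A) (bar p B)) 0).2.2.2.2.2.2.1.1 h0)
  have hcast : ∀ m : ℕ, ((m : ℕ) : k[X]) = tt p (r τ) (C (m : ZMod p)) := by
    intro m
    rw [sh2, map_natCast, C_eq_natCast]
  have hAL' : (e : k[X]) * (wr (tt p (r τ) (bar p w₁)) (tt p (r τ) (bar p w₂)) *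
        (tt p (r τ) (bar p A) * tt p (r τ) (bar p B))) +
      (s : k[X]) * (wr (tt p (r τ) (bar p A)) (tt p (r τ) (bar p B)) *
        (tt p (r τ) (bar p w₁) * tt p (r τ) (bar p w₂))) ≠ 0 := by
    have hmul : ∀ a b : (ZMod p)[X], tt p (r τ) (a * b) = tt p (r τ) a * tt p (r τ) b :=
      fun a b => (sh1 (r τ) a b).2.1
    have hadd : ∀ a b : (ZMod p)[X], tt p (r τ) (a + b) = tt p (r τ) a + tt p (r τ) b :=
      fun a b => (sh1 (r τ) a b).1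
    have hw : ∀ a b : (ZMod p)[X], wr (tt p (r τ) a) (tt p (r τ) b) = tt p (r τ) (wr a b) :=
      fun a b => (sh1 (r τ) a b).2.2.2.1
    rw [hcast, hcast, hw, hw, ← hmul, ← hmul, ← hmul, ← hmul, ← hmul, ← hmul, ← hadd]
    intro h0
    exact hAL e hwp.e1 (by have := hwp.eD; omega) (s : ZMod p)
      ((sh1 (r τ) _ 0).2.2.2.2.2.2.1.1 h0)
  obtain ⟨R₁, R₂, h1, h2, h3⟩ := hfa1 p hp k D (tt p (r τ) (bar p A)) (tt p (r τ) (bar p B))
    (tt p (r τ) (bar p E₁)) (tt p (r τ) (bar p E₂)) (tt p (r τ) (bar p w₁)) (tt p (r τ) (bar p w₂))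
    (M.map r) (E.map r) (r o) c n e h s hpD (deg A hA) (deg B hB) (deg E₁ hE1) (deg E₂ hE2)
    (deg w₁ hw1) (deg w₂ hw2) hro hc hwp.n1 hwp.e1 hwp.eD hM hEE (c0 A hwd.nA) (c0 B hwd.nB)
    (c0 E₂ hwd.nE) (c0 w₁ hwd.n1) (c0 w₂ hwd.n2) hwp.M0 hwp.E0 hwr' hAL' hdvd
  exact hfa2 p hp k (tt p (r τ) (bar p A)) (tt p (r τ) (bar p B)) R₁ R₂
    ((sh1 (r τ) (bar p A) (bar p B)).2.2.2.2.2.2.2.2 hSg) h1 h2 h3

end Pool.Agent.ZPU.H75
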