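import Pool.Agent.ZPU.Stmts

/-! ZPU, row WZ1 (the polynomial congruence for `a = 1`). -/

set_option autoImplicit false

namespace Pool.Agent.ZPU.H75

open Polynomial Pool.Agent.ZPU Pool.Agent.ZPT Pool.Agent.ZP3

section

theorem L1_map (p : ℕ) {S T : Type} [CommRing S] [CommRing T] (φ : S →+* T) (c : ℕ → S) (d : ℕ → T)
    (hcd : ∀ j, j < p - 1 → φ (c j) = d j) (u v : S) :
    φ (L1 p c u v) = L1 p d (φ u) (φ v) := by
  unfold L1
  rw [map_sum]
  refine Finset.sum_congr rfl fun j hj => ?_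
  rw [map_mul, map_mul, map_pow, map_pow, hcd j (Finset.mem_range.1 hj)]

variable {K : Type} [NormedField K] [CharZero K] [IsUltrametricDist K]

/-- evaluation as a ring homomorphism. -/
noncomputable def evH (y : K) : (OO K)[X] →+* K := eval₂RingHom (OO K).subtype y

theorem evH_apply (P : (OO K)[X]) (y : K) : evH y P = evO P y := rfl

theorem evH_C (c : OO K) (y : K) : evH y (C c) = (c : K) := by
  rw [evH_apply]
  unfold evO
  rw [eval₂_C]
  rfl

theorem lc_cast (j : ℕ) : lc K j = ((lc ℚ j : ℚ) : K) := by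
  unfold lc
  push_cast
  rfl

theorem lc_mul (R : Type) [Field R] (j : ℕ) (h : ((j + 1 : ℕ) : R) ≠ 0) :
    lc R j * ((j + 1 : ℕ) : R) = (-1) ^ j := by
  unfold lc
  rw [div_mul_cancel₀ _ h]

theorem padic_lc (p : ℕ) (hp : p.Prime) (j : ℕ) (hj : j + 1 < p) : padicNorm p (lc ℚ j) ≤ 1 := by
  have : Fact p.Prime := ⟨hp⟩
  unfold lc
  rw [padicNorm.div]
  have h1 : padicNorm p ((-1 : ℚ) ^ j) = 1 := by
    rcases neg_one_pow_eq_or ℚ j with h | h
    · rw [h, padicNorm.one]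
    · rw [h, padicNorm.neg, padicNorm.one]
  have h2 : padicNorm p ((j + 1 : ℕ) : ℚ) = 1 := by
    rw [padicNorm.nat_eq_one_iff]
    intro h
    exact absurd (Nat.le_of_dvd (by omega) h) (by omega)
  rw [h1, h2]
  norm_num

end

theorem wz1 (hwze : WZEStmt) (hnwt : NWTStmt) (hshr : SHRStmt) (hevo : EVOStmt) (hurp : URPStmt)
    (htef : TEFStmt) (hurr : URRStmt) : WZ1Stmt := by
  intro p hp K _ _ _ hE k _ _ r hr D A B E₁ E₂ w₁ w₂ h hpD t t₀ ζ x Q ω η hwd hζ hω hη τ o n e ξ M E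
    hwp
  obtain ⟨hy1, κ, ξt, s, hκ, hξ, hz⟩ := hwze p hp K hE k r hr D A B E₁ E₂ w₁ w₂ h hpD t t₀ ζ x Q ω η
    hwd hζ hω hη τ o n e ξ M E hwp
  obtain ⟨ev1, ev2, ev3, ev4, ev5, ev6, ev7⟩ := hevo K
  obtain ⟨up1, up2, up3, up4, up5, up6⟩ := hurp p hp K hE
  obtain ⟨te1, te2, te3, te4⟩ := htef p hp K hE
  obtain ⟨ur1, ur2, ur3, ur4, ur5⟩ := hurr p hp K hE
  obtain ⟨_, sh2, sh3⟩ := hshr p hp k
  have uτ : Ur p (τ : K) := by
    rw [hwp.τ0]
    exact (te1 t₀ hwd.te).1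
  have uω := (te2 ω hω).2.1
  have uo : Ur p (o : K) := by
    rw [hwp.o0]
    exact uω.1
  have uξ := (te2 ξt hξ).2.1
  -- the coefficients in `OO K`
  have hlc : ∀ j, j + 1 < p → ‖lc K j‖ ≤ 1 ∧ Ur p (lc K j) := by
    intro j hj
    have h1 := ur2 (lc ℚ j) (padic_lc p hp j hj)
    rw [← lc_cast] at h1
    exact ⟨h1.1, h1⟩
  obtain ⟨lc', hlc'⟩ : ∃ lc' : ℕ → OO K, ∀ j, j + 1 < p → (lc' j : K) = lc K j := by
    classical
    refine ⟨fun j => if hj : j + 1 < p then ⟨lc K j, (hlc j hj).1⟩ else 0, fun j hj => ?_⟩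
    simp only [dif_pos hj]
  obtain ⟨κ', hκ'⟩ : ∃ κ' : OO K, (κ' : K) = κ := ⟨⟨κ, hκ.2.le⟩, rfl⟩
  obtain ⟨ξ', hξ'⟩ : ∃ ξ' : OO K, (ξ' : K) = ξt := ⟨⟨ξt, uξ.2.le⟩, rfl⟩
  have rκ : r κ' ≠ 0 := by
    intro h0
    rw [hr, hκ', hκ.2] at h0
    exact lt_irrefl _ h0
  have rξ : r ξ' ≠ 0 := by
    intro h0
    rw [hr, hξ', uξ.2] at h0
    exact lt_irrefl _ h0
  have rlc : ∀ j, j < p - 1 → r (lc' j) = lc k j := by
    intro j hj
    have hj1 : j + 1 < p := by omega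
    have hne : ((j + 1 : ℕ) : k) ≠ 0 := by
      intro h0
      rw [CharP.cast_eq_zero_iff k p] at h0
      exact absurd (Nat.le_of_dvd (by omega) h0) (by omega)
    have hneK : ((j + 1 : ℕ) : K) ≠ 0 := by
      exact_mod_cast (Nat.succ_ne_zero j)
    have h1 : lc' j * ((j + 1 : ℕ) : OO K) = (-1) ^ j := by
      apply Subtype.ext
      have h2 := lc_mul K j hneK
      rw [← hlc' j hj1] at h2
      push_cast at h2 ⊢
      exact h2
    have h3 := congrArg r h1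
    rw [map_mul, map_natCast, map_pow, map_neg, map_one] at h3
    have h4 := lc_mul k j hne
    rw [← h4] at h3
    exact mul_right_cancel₀ hne h3
  -- names for the polynomials
  obtain ⟨PB, hPB⟩ : ∃ PB : (OO K)[X], PB = C o * sh B τ := ⟨_, rfl⟩
  obtain ⟨PL, hPL⟩ : ∃ PL : (OO K)[X], PL = L1 p (fun j => C (lc' j)) (sh A τ - PB) PB := ⟨_, rfl⟩
  obtain ⟨P, hP⟩ : ∃ P : (OO K)[X], P =
      C κ' * (M * PL) ^ (e * h) * PB ^ (e * h) * sh E₂ τ ^ (n * h) * sh w₂ τ ^ e * sh B τ ^ s -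
      C ξ' * PB ^ (p * (e * h)) * E ^ (n * h) * sh w₁ τ ^ e * sh A τ ^ s := ⟨_, rfl⟩
  have eτ : t - t₀ + (τ : K) = t := by
    rw [hwp.τ0]
    ring
  have esh : ∀ A : ℤ[X], evH (t - t₀) (sh A τ) = aeval t A := by
    intro A
    rw [evH_apply, ev5, eτ]
  have ePB : evH (t - t₀) PB = ω * aeval t B := by
    rw [hPB, map_mul, evH_C, esh, hwp.o0]
  have ePL : evH (t - t₀) PL = L1 p (lc K) (aeval t A - ω * aeval t B) (ω * aeval t B) := by
    rw [hPL, L1_map p (evH (t - t₀)) (fun j => C (lc' j)) (lc K) (fun j hj => by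
      rw [evH_C, hlc' j (by omega)]), map_sub, esh, ePB]
  have eP : evO P (t - t₀) = κ * (evO M (t - t₀) *
        L1 p (lc K) (aeval t A - ω * aeval t B) (ω * aeval t B)) ^ (e * h) *
        (ω * aeval t B) ^ (e * h) * aeval t E₂ ^ (n * h) * aeval t w₂ ^ e * aeval t B ^ s -
      ξt * (ω * aeval t B) ^ (p * (e * h)) * evO E (t - t₀) ^ (n * h) * aeval t w₁ ^ e *
        aeval t A ^ s := by
    rw [← evH_apply, hP]
    have eM : evH (t - t₀) M = evO M (t - t₀) := rfl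
    have eE : evH (t - t₀) E = evO E (t - t₀) := rfl
    simp only [map_sub, map_mul, map_pow, evH_C, esh, ePB, ePL, hκ', hξ', eM, eE]
  -- unramified
  have u0 : UrP p (0 : (OO K)[X]) := by
    have h1 := (up1 X X up4 up4).2.2
    rw [sub_self] at h1
    exact h1
  have uPB : UrP p PB := by
    rw [hPB]
    exact (up1 _ _ (up3 o uo) (up5 B τ uτ)).2.1
  have usum : ∀ (S : Finset ℕ) (f : ℕ → (OO K)[X]), (∀ j ∈ S, UrP p (f j)) →
      UrP p (∑ j ∈ S, f j) := by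
    intro S f
    classical
    induction S using Finset.induction_on with
    | empty => intro _; rw [Finset.sum_empty]; exact u0
    | insert a S ha ih =>
      intro hf
      rw [Finset.sum_insert ha]
      exact (up1 _ _ (hf a (Finset.mem_insert_self a S))
        (ih fun j hj => hf j (Finset.mem_insert_of_mem hj))).1
  have uPL : UrP p PL := by
    rw [hPL]
    unfold L1
    refine usum _ _ fun j hj => ?_
    have hj1 : j + 1 < p := by
      have := Finset.mem_range.1 hj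
      omega
    have h1 : Ur p (lc' j : K) := by
      rw [hlc' j hj1]
      exact (hlc j hj1).2
    exact (up1 _ _ (up1 _ _ (up3 _ h1) (up2 _ (up1 _ _ (up5 A τ uτ) uPB).2.2 _)).2.1
      (up2 _ uPB _)).2.1
  have uκ' : Ur p (κ' : K) := by
    rw [hκ']
    exact hκ.1
  have uξ' : Ur p (ξ' : K) := by
    rw [hξ']
    exact uξ.1
  have uP : UrP p P := by
    rw [hP]
    refine (up1 _ _ ?_ ?_).2.2
    · exact (up1 _ _ (up1 _ _ (up1 _ _ (up1 _ _ (up1 _ _ (up3 _ uκ')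
        (up2 _ (up1 _ _ hwp.uM uPL).2.1 _)).2.1 (up2 _ uPB _)).2.1
        (up2 _ (up5 E₂ τ uτ) _)).2.1 (up2 _ (up5 w₂ τ uτ) _)).2.1 (up2 _ (up5 B τ uτ) _)).2.1
    · exact (up1 _ _ (up1 _ _ (up1 _ _ (up1 _ _ (up3 _ uξ') (up2 _ uPB _)).2.1
        (up2 _ hwp.uE _)).2.1 (up2 _ (up5 w₁ τ uτ) _)).2.1 (up2 _ (up5 A τ uτ) _)).2.1
  -- Newton
  have y0 := hwp.y0
  have y1 := hwd.ht
  have n1 : (p : ℝ)⁻¹ < ‖t - t₀‖ ^ (p - 2 - D) := by
    refine lt_of_le_of_lt hy1 ?_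
    exact pow_lt_pow_right_of_lt_one₀ y0 y1 (by omega)
  have n2 : ‖evO P (t - t₀)‖ < ‖t - t₀‖ ^ (p - 2 - D) := by
    rw [eP]
    refine lt_of_le_of_lt hz ?_
    exact pow_lt_pow_right_of_lt_one₀ y0 y1 (by omega)
  have n3 := hnwt p hp K hE k r hr P (t - t₀) (p - 2 - D) uP y1 n1 n2
  rw [show p - 2 - D + 1 = p - 1 - D by omega] at n3
  -- reduction
  have rsh : ∀ A : ℤ[X], (sh A τ).map r = tt p (r τ) (bar p A) := fun A => (sh3 K r hr A τ).1
  have rPB : PB.map r = C (r o) * tt p (r τ) (bar p B) := by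
    rw [hPB, Polynomial.map_mul, map_C, rsh]
  have rPL : PL.map r = L1 p (fun j => C (lc k j)) (tt p (r τ) (bar p A) -
      C (r o) * tt p (r τ) (bar p B)) (C (r o) * tt p (r τ) (bar p B)) := by
    have h1 := L1_map p (mapRingHom r) (fun j => C (lc' j)) (fun j => C (lc k j)) (fun j hj => by
      rw [coe_mapRingHom, map_C, rlc j hj]) (sh A τ - PB) PB
    rw [hPL]
    rw [coe_mapRingHom] at h1
    rw [h1, Polynomial.map_sub, rsh, rPB]
  refine ⟨r ξ' / r κ', s, div_ne_zero rξ rκ, ?_⟩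
  have hmap : P.map r = C (r κ') *
      (IdL p (tt p (r τ) (bar p A)) (tt p (r τ) (bar p B)) (tt p (r τ) (bar p E₂))
        (tt p (r τ) (bar p w₂)) (M.map r) (r o) n e h s -
      IdR p (tt p (r τ) (bar p A)) (tt p (r τ) (bar p B)) (tt p (r τ) (bar p w₁)) (E.map r)
        (r o) (r ξ' / r κ') n e h s) := by
    have hc : C (r ξ') = C (r κ') * C (r ξ' / r κ') := by
      rw [← C_mul, mul_div_cancel₀ _ rκ]
    rw [hP]
    unfold IdL IdR
    simp only [Polynomial.map_sub, Polynomial.map_mul, Polynomial.map_pow, map_C, rsh, rPB, rPL]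
    rw [hc]
    ring
  rw [hmap] at n3
  have n4 : (tt p (r τ) (bar p A)) = tt p (r τ) (bar p A) := rfl
  have n5 := Dvd.dvd.mul_left n3 (C (r κ')⁻¹)
  rw [← mul_assoc, ← C_mul, inv_mul_cancel₀ rκ, C_1, one_mul] at n5
  exact n5

end Pool.Agent.ZPU.H75
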